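import Mathlib

set_option autoImplicit false

open Finset

namespace Pool.Agent.Results.MP_d6ea2c_co.Full

/-- `G` has a connected partition of every type. -/
def EveryType {n : ℕ} (G : SimpleGraph (Fin n)) : Prop :=
  ∀ t : n.Partition, ∃ P : Finpartition (univ : Finset (Fin n)),
    (∀ B ∈ P.parts, (G.induce (B : Set (Fin n))).Connected) ∧ P.parts.val.map card = t.parts

def par (v : ℕ) : ℕ := if v = 43 ∨ v = 44 ∨ v = 45 then 0 else if v = 70 ∨ v = 72 then 45 else v - 1

/-- Adjacent centres `0` (legs `42,1,1`) and `45` (legs `24,2,1`). -/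
def G : SimpleGraph (Fin 73) := .fromRel fun u v => v.1 ≠ 0 ∧ u.1 = par v

instance : DecidableRel G.Adj := fun u v => by unfold G; simp only [SimpleGraph.fromRel_adj]; infer_instance

lemma conn {B : Finset (Fin 73)} (r : Fin 73) (hr : r ∈ B)
    (h : ∀ v ∈ B, v ≠ r → v.1 ≠ 0 ∧ ∀ u : Fin 73, u.1 = par v → u ∈ B) :
    (G.induce (B : Set (Fin 73))).Connected := by
  have : ∀ k, ∀ v : (B : Set (Fin 73)), v.1.1 = k → (G.induce _).Reachable v ⟨r, hr⟩ := fun k => by
    induction k using Nat.strong_induction_on with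
    | _ k ih =>
      rintro ⟨v, hv⟩ rfl
      by_cases e : v = r
      · subst e; rfl
      obtain ⟨a, b⟩ := h v hv e
      have l : par v < v := by unfold par; split_ifs <;> omega
      refine (SimpleGraph.Adj.reachable ?_).trans (ih _ l ⟨⟨par v, by omega⟩, b _ rfl⟩ rfl)
      show G.Adj v ⟨par v, by omega⟩
      rw [G, SimpleGraph.fromRel_adj]
      exact ⟨fun e => l.ne' (congrArg Fin.val e), .inr ⟨a, rfl⟩⟩
  exact (SimpleGraph.connected_iff_exists_forall_reachable _).2
    ⟨⟨r, hr⟩, fun v => (this _ v rfl).symm⟩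

def CP (T : Finset (Fin 73)) (l : Multiset ℕ) : Prop := ∃ P : Finpartition T,
  (∀ B ∈ P.parts, (G.induce (B : Set (Fin 73))).Connected) ∧ P.parts.val.map card = l

def S (a p q c d e : ℕ) : Finset (Fin 73) := univ.filter fun v =>
  v.1 ≤ a ∨ (43 ≤ v.1 ∧ v.1 < 43 + p) ∨ (44 ≤ v.1 ∧ v.1 < 44 + q) ∨ (45 ≤ v.1 ∧ v.1 < 46 + c) ∨
    (70 ≤ v.1 ∧ v.1 < 70 + d) ∨ (72 ≤ v.1 ∧ v.1 < 72 + e)

def Q (a p q c d e : ℕ) (l : List ℕ) : Prop :=
  a ≤ 42 ∧ p ≤ 1 ∧ q ≤ 1 ∧ c ≤ 24 ∧ d ≤ 2 ∧ e ≤ 1 → ∃ z, CP (S a p q c d e) (z ::ₘ l)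

variable {a p q c d e x : ℕ} {l t : List ℕ}

lemma Q.perm {l' : List ℕ} (h : Q a p q c d e l) (w : l.Perm l') : Q a p q c d e l' := by
  rwa [Q, ← Multiset.coe_eq_coe.2 w]

lemma base : Q a p q c d e [] := fun _ =>
  ⟨_, .indiscrete (nonempty_iff_ne_empty.1 ⟨0, by simp [S]⟩), fun B hB => by
    obtain rfl := mem_singleton.1 hB
    refine conn 0 (by simp [S]) fun v hv e => ⟨fun h => e (Fin.ext h), fun u hu => ?_⟩
    simp only [S, mem_filter, mem_univ, true_and, par] at hv hu ⊢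
    split_ifs at hu <;> omega, rfl⟩

def L (a p q : ℕ) : Finset (Fin 73) := univ.filter fun v =>
  v.1 ≤ a ∨ (43 ≤ v.1 ∧ v.1 < 43 + p) ∨ (44 ≤ v.1 ∧ v.1 < 44 + q)

lemma base' : Q a p q c d e [a + p + q + 1] := fun h => by
  have k := (by decide +kernel : ∀ a < 43, ∀ p < 2, ∀ q < 2, #(L a p q) = a + p + q + 1) a
    (by omega) p (by omega) q (by omega)
  have m : (45 : Fin 73) ∈ S a p q c d e \ L a p q := by simp [S, L]; omega
  have m' : (0 : Fin 73) ∈ L a p q := by simp [L]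
  refine ⟨#(S a p q c d e \ L a p q), (Finpartition.indiscrete (ne_empty_of_mem m')).extend (ne_empty_of_mem m)
    disjoint_sdiff (union_sdiff_of_subset fun v => by simp [S, L]; omega), fun B hB => ?_, ?_⟩
  · rcases mem_insert.1 hB with rfl | hB
    · refine conn 45 m fun v hv e => ?_
      have := Fin.val_ne_of_ne e
      simp only [S, L, mem_sdiff, mem_filter, mem_univ, true_and, par] at hv ⊢
      exact ⟨by omega, fun u hu => by simp at this; split_ifs at hu <;> omega⟩
    · obtain rfl := mem_singleton.1 hB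
      refine conn 0 m' fun v hv e => ⟨fun h => e (Fin.ext h), fun u hu => ?_⟩
      simp only [L, mem_filter, mem_univ, true_and, par] at hv hu ⊢
      split_ifs at hu <;> omega
  · rw [Finpartition.extend_parts, insert_val_of_notMem fun w =>
      (mem_sdiff.1 m).2 (by rw [← (mem_singleton.1 w : _ = L a p q)]; exact m), Multiset.map_cons, ← k]
    rfl

lemma step {T T' : Finset (Fin 73)} (s x : ℕ) (h : ∃ z, CP T (z ::ₘ l)) (hx : 0 < x)
    (hs : s + x ≤ 73) (h1 : ∀ v, v ∈ T' ↔ v ∈ T ∨ (s ≤ v.1 ∧ v.1 < s + x))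
    (h2 : ∀ v ∈ T, ¬ (s ≤ v.1 ∧ v.1 < s + x))
    (h3 : ∀ v, s < v → v < s + x → v ≠ 43 ∧ v ≠ 44 ∧ v ≠ 45 ∧ v ≠ 70 ∧ v ≠ 72) : ∃ z, CP T' (z ::ₘ (x :: l : List ℕ)) := by
  obtain ⟨z, P, a, b⟩ := h
  let B : Finset (Fin 73) := univ.filter fun v => s ≤ v.1 ∧ v.1 < s + x
  have m : (⟨s, by omega⟩ : Fin 73) ∈ B := by simp [B, hx]
  have c : #B = x := by
    rw [← card_map Fin.valEmbedding, show B.map _ = Ico s (s + x) from ?_, Nat.card_Ico]
    · omega
    · ext v
      simp only [B, mem_map, mem_filter, mem_univ, true_and, mem_Ico, Fin.valEmbedding_apply]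
      exact ⟨fun ⟨u, p, q⟩ => q ▸ p, fun p => ⟨⟨v, by omega⟩, p, rfl⟩⟩
  refine ⟨z, P.extend (b := B) (ne_empty_of_mem m) (disjoint_left.2 fun v p q => h2 v p (mem_filter.1 q).2)
    (by ext v; simp [h1, B]), fun C hC => ?_, ?_⟩
  · rcases mem_insert.1 hC with rfl | hC
    · refine conn _ m fun v hv e => ?_
      have := Fin.val_ne_of_ne e
      simp only [B, mem_filter, mem_univ, true_and, par] at *
      have := h3 v (by omega) hv.2
      exact ⟨by omega, fun u hu => by split_ifs at hu <;> omega⟩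
    · exact a C hC
  · rw [Finpartition.extend_parts, insert_val_of_notMem fun q => h2 _ (P.le q m) (mem_filter.1 m).2,
      Multiset.map_cons, b, c, ← Multiset.cons_coe, Multiset.cons_swap]

lemma sa (u : 0 < x) (w : x ≤ a) (h : Q (a - x) p q c d e l) : Q a p q c d e (x :: l) :=
  fun _ => step (1 + (a - x)) x (h (by omega)) u (by omega) (by simp [S]; omega)
    (by simp [S]; omega) (by omega)

lemma sp (u : 0 < x) (w : x ≤ p) (h : Q a (p - x) q c d e l) : Q a p q c d e (x :: l) :=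
  fun _ => step (43 + (p - x)) x (h (by omega)) u (by omega) (by simp [S]; omega)
    (by simp [S]; omega) (by omega)

lemma sq (u : 0 < x) (w : x ≤ q) (h : Q a p (q - x) c d e l) : Q a p q c d e (x :: l) :=
  fun _ => step (44 + (q - x)) x (h (by omega)) u (by omega) (by simp [S]; omega)
    (by simp [S]; omega) (by omega)

lemma sc (u : 0 < x) (w : x ≤ c) (h : Q a p q (c - x) d e l) : Q a p q c d e (x :: l) :=
  fun _ => step (46 + (c - x)) x (h (by omega)) u (by omega) (by simp [S]; omega)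
    (by simp [S]; omega) (by omega)

lemma sd (u : 0 < x) (w : x ≤ d) (h : Q a p q c (d - x) e l) : Q a p q c d e (x :: l) :=
  fun _ => step (70 + (d - x)) x (h (by omega)) u (by omega) (by simp [S]; omega)
    (by simp [S]; omega) (by omega)

lemma se (u : 0 < x) (w : x ≤ e) (h : Q a p q c d (e - x) l) : Q a p q c d e (x :: l) :=
  fun _ => step (72 + (e - x)) x (h (by omega)) u (by omega) (by simp [S]; omega)
    (by simp [S]; omega) (by omega)

lemma fa : ∀ (l : List ℕ) (a : ℕ), (∀ x ∈ l, 0 < x) → l.sum ≤ a → Q (a - l.sum) p q c d e t →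
    Q a p q c d e (l ++ t)
  | [], _, _, _, h => h
  | x :: l, a, u, w, h => by
    rw [List.sum_cons] at w h
    exact sa (u x (.head _)) (by omega) (fa l _ (fun y hy => u y (.tail _ hy)) (by omega)
      (by rwa [Nat.sub_sub]))

lemma fc : ∀ (l : List ℕ) (c : ℕ), (∀ x ∈ l, 0 < x) → l.sum ≤ c → Q a p q (c - l.sum) d e t →
    Q a p q c d e (l ++ t)
  | [], _, _, _, h => h
  | x :: l, c, u, w, h => by
    rw [List.sum_cons] at w h
    exact sc (u x (.head _)) (by omega) (fc l _ (fun y hy => u y (.tail _ hy)) (by omega)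
      (by rwa [Nat.sub_sub]))

lemma er {P P' : List ℕ → Prop} (h0 : ∀ l l', P l → l.Perm l' → P l') (h1 : ∀ l, P' l → P (x :: l))
    (h2 : ∀ l, P' l → P l) (h : P' (l.erase x ++ t)) : P (l ++ t) := by
  by_cases e : x ∈ l
  · exact h0 _ _ (h1 _ h) ((List.perm_cons_erase e).append_right t).symm
  · exact h2 _ (List.erase_of_not_mem e ▸ h)

def SS (l : List ℕ) (s : ℕ) : Prop := ∃ l₁ l₂, l.Perm (l₁ ++ l₂) ∧ l₁.sum = s

lemma fin {s : ℕ} (u : ∀ x ∈ l, 0 < x) (h : SS l s) (h1 : s ≤ c) (h2 : l.sum - s ≤ a)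
    (k : Q (a - (l.sum - s)) p q (c - s) d e t) : Q a p q c d e (l ++ t) := by
  obtain ⟨l₁, l₂, w, rfl⟩ := h
  have := w.sum_eq
  rw [List.sum_append] at this
  refine Q.perm (fc l₁ _ (fun y hy => u y (w.mem_iff.2 (by simp [hy]))) h1 (fa l₂ _
    (fun y hy => u y (w.mem_iff.2 (by simp [hy]))) (by omega) (by convert k using 2; omega))) ?_
  rw [← List.append_assoc]; exact (w.append_right t).symm

def mask : List ℕ → ℕ → ℕ
  | [], k => k
  | _ :: _, 0 => 0
  | x :: l, k + 1 => mask l (k.succ ||| k.succ <<< x)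

lemma sub (s : ℕ) : ∀ (l : List ℕ) (k : ℕ), (mask l k).testBit s →
    ∃ u ≤ s, k.testBit (s - u) ∧ SS l u
  | [], k, h => ⟨0, by omega, h, [], [], .nil, rfl⟩
  | _ :: _, 0, h => by simp [mask] at h
  | x :: l, k + 1, h => by
    obtain ⟨u, a1, a2, l₁, l₂, w, rfl⟩ := sub s l _ h
    rw [Nat.testBit_or, Nat.testBit_shiftLeft, Bool.or_eq_true, Bool.and_eq_true,
      decide_eq_true_eq] at a2
    rcases a2 with e | e
    · exact ⟨_, a1, e, l₁, x :: l₂, (w.cons x).trans List.perm_middle.symm, rfl⟩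
    · exact ⟨x + l₁.sum, by omega, by convert e.2 using 2; omega, x :: l₁, l₂, w.cons x, by simp⟩

lemma sub' {s : ℕ} (h : (mask l 1).testBit s) : SS l s := by
  obtain ⟨u, a, b, c⟩ := sub s l 1 h
  have := Nat.testBit_one_eq_true_iff_self_eq_zero.1 b
  rwa [show s = u by omega]

def dil : ℕ → ℕ → ℕ
  | 0, k => k
  | _ + 1, 0 => 0
  | n + 1, k + 1 => dil n (k.succ ||| k.succ <<< 1)

lemma dil_ok (s : ℕ) : ∀ n k, (dil n k).testBit s → ∃ j ≤ n, j ≤ s ∧ k.testBit (s - j)
  | 0, k, h => ⟨0, le_rfl, by omega, h⟩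
  | _ + 1, 0, h => by simp [dil] at h
  | n + 1, k + 1, h => by
    obtain ⟨j, a, b, c⟩ := dil_ok s n _ h
    rw [Nat.testBit_or, Nat.testBit_shiftLeft, Bool.or_eq_true, Bool.and_eq_true,
      decide_eq_true_eq] at c
    exact c.elim (fun c => ⟨j, by omega, b, c⟩) fun c => ⟨j + 1, by omega, by omega, c.2⟩

def ero : ℕ → ℕ → ℕ
  | 0, k => k
  | _ + 1, 0 => 0
  | n + 1, k + 1 => ero n (k.succ &&& k.succ >>> 1)

lemma ero_ok (s : ℕ) : ∀ n k, (ero n k).testBit s → ∀ j ≤ n, k.testBit (s + j)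
  | 0, k, h, j, a => by rwa [show j = 0 by omega]
  | _ + 1, 0, h, _, _ => by simp [ero] at h
  | n + 1, k + 1, h, j, a => by
    have := ero_ok s n _ h
    simp only [Nat.testBit_and, Nat.testBit_shiftRight, Bool.and_eq_true] at this
    cases j with
    | zero => exact (this 0 (by omega)).1
    | succ j => convert (this j (by omega)).2 using 2; omega

lemma pre {m : ℕ} : ∀ (t : List ℕ) (s : ℕ), (∀ x ∈ t, x ≤ m + 1) → s ≤ t.sum → ∃ j ≤ m, SS t (s + j)
  | t, 0, _, _ => ⟨0, by omega, [], t, .refl _, rfl⟩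
  | [], s + 1, _, h => by simp at h
  | x :: t, s + 1, u, h => by
    have := u x (.head _)
    rw [List.sum_cons] at h
    by_cases k : s + 1 ≤ x
    · exact ⟨x - (s + 1), by omega, [x], t, .refl _, by simp; omega⟩
    · obtain ⟨j, a, l₁, l₂, w, b⟩ := pre t (s + 1 - x) (fun y hy => u y (.tail _ hy)) (by omega)
      exact ⟨j, a, x :: l₁, l₂, w.cons x, by simp; omega⟩

def w2 (r m : ℕ) : ℕ → Bool
  | 0 => false
  | k + 1 => k.succ.testBit 0 || k.succ.testBit r || !(ero m k.succ % 2 ^ (r + 1)).beq 0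

def w1 (l : List ℕ) (r m : ℕ) : ℕ → Bool
  | 0 => false
  | T + 1 => (T + r - 42).ble 24 &&
    w2 r m ((dil (24 - (T + r - 42)) (mask l 1) <<< (T + r - 42)) >>> T)

lemma w1_ok {r m : ℕ} (u : ∀ x ∈ l, 0 < x) (h : w1 l r m (l.sum + 1))
    (v : ∀ x ∈ t, 0 < x ∧ x ≤ m + 1) (w : t.sum = r) : Q 42 p q 24 d e (l ++ t) := by
  simp only [w1, Bool.and_eq_true, Nat.ble_eq] at h
  obtain ⟨h0, h⟩ := h
  generalize hE : (dil _ _ <<< _) >>> l.sum = E at h
  obtain ⟨s, a, b⟩ : ∃ s, E.testBit s ∧ SS t s := by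
    cases E with
    | zero => simp [w2] at h
    | succ k =>
      simp only [w2, Bool.or_eq_true, Bool.not_eq_true', ← Bool.not_eq_true, Nat.beq_eq] at h
      rcases h with (h | h) | h
      · exact ⟨0, h, [], t, .refl _, rfl⟩
      · exact ⟨r, h, t, [], by simp, w⟩
      · obtain ⟨i, hi⟩ := Nat.exists_testBit_of_ne_zero h
        rw [Nat.testBit_mod_two_pow, Bool.and_eq_true, decide_eq_true_eq] at hi
        obtain ⟨j, a, b⟩ := pre t i (fun x hx => (v x hx).2) (by omega)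
        exact ⟨_, ero_ok i m _ hi.2 j a, b⟩
  rw [← hE, Nat.testBit_shiftRight, Nat.testBit_shiftLeft, Bool.and_eq_true, decide_eq_true_eq] at a
  obtain ⟨j, a1, a2, a3⟩ := dil_ok _ _ _ a.2
  obtain ⟨l₁, l₂, c1, c2⟩ := sub' a3
  obtain ⟨t₁, t₂, d1, rfl⟩ := b
  have := c1.sum_eq
  rw [List.sum_append] at this
  rw [← List.append_nil (l ++ t)]
  refine fin (s := (l₂ ++ t₁).sum) (fun x hx => (List.mem_append.1 hx).elim (u x) fun h => (v x h).1)
    ⟨l₂ ++ t₁, l₁ ++ t₂, (c1.append d1).trans ?_, rfl⟩ (by simp; omega) (by simp; omega) base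
  rw [← Multiset.coe_eq_coe]
  simp only [← Multiset.coe_add]
  abel

def strip (l : List ℕ) : List ℕ := bif l.elem 2 then l.erase 2 else (l.erase 1).erase 1

def frc (k : List ℕ → Bool) : List ℕ → List ℕ → Bool
  | [], a => k a
  | x :: l, a => frc k l (x :: a)

lemma frc_eq (k : List ℕ → Bool) : ∀ l a, frc k l a = k (l.reverse ++ a)
  | [], _ => rfl
  | x :: l, a => by simp [frc, frc_eq k l]

def same (l : List ℕ) (r m : ℕ) : Bool :=
  frc (fun l => w1 l r m (l.sum + 1)) (strip (((l.erase 1).erase 1).erase 1)) []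

lemma same_ok {r m : ℕ} (u : ∀ x ∈ l, 0 < x) (h : same l r m)
    (v : ∀ x ∈ t, 0 < x ∧ x ≤ m + 1) (w : t.sum = r) : Q 42 1 1 24 2 1 (l ++ t) := by
  rw [same, frc_eq, List.append_nil] at h
  have k : ∀ p q d e, Q 42 p q 24 d e (strip (((l.erase 1).erase 1).erase 1) ++ t) :=
    fun p q d e => (w1_ok (fun x hx => u x (by
      rw [List.mem_reverse, strip] at hx
      cases h : List.elem 2 (((l.erase 1).erase 1).erase 1) <;> rw [h] at hx <;>
        repeat first | exact hx | replace hx := List.mem_of_mem_erase hx)) h v w).perm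
      ((List.reverse_perm _).append_right t)
  refine er (x := 1) (P' := fun l => ∀ p, Q 42 p 1 24 2 1 l) (fun _ _ => Q.perm)
    (fun _ h => sp one_pos le_rfl (h _)) (fun _ h => h _) fun p => ?_
  refine er (x := 1) (P' := fun l => ∀ q, Q 42 p q 24 2 1 l) (fun _ _ => Q.perm)
    (fun _ h => sq one_pos le_rfl (h _)) (fun _ h => h _) fun q => ?_
  refine er (x := 1) (P' := fun l => ∀ e, Q 42 p q 24 2 e l) (fun _ _ => Q.perm)
    (fun _ h => se one_pos le_rfl (h _)) (fun _ h => h _) fun e => ?_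
  unfold strip at k
  cases h : List.elem 2 (((l.erase 1).erase 1).erase 1) <;> rw [h] at k
  · refine er (x := 1) (P' := fun l => ∀ d, 1 ≤ d → Q 42 p q 24 d e l) (fun _ _ => Q.perm)
      (fun _ h => sd one_pos one_le_two (h _ le_rfl)) (fun _ h => h _ one_le_two) fun d hd => ?_
    exact er (x := 1) (P' := fun l => ∀ d, Q 42 p q 24 d e l) (fun _ _ => Q.perm)
      (fun _ h => sd one_pos hd (h _)) (fun _ h => h _) fun d => k p q d e
  · exact er (x := 2) (P' := fun l => ∀ d, Q 42 p q 24 d e l) (fun _ _ => Q.perm)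
      (fun _ h => sd two_pos le_rfl (h _)) (fun _ h => h _) fun d => k p q d e

def dt (l : List ℕ) (y : ℕ) (o : List ℕ) (i : ℕ) : Bool := (i + 1).ble y && y.ble (43 + i) &&
  (o ++ l.diff o).isPerm l && ((l.diff o).sum - (43 + i - y)).ble 24 &&
  (mask (l.diff o) 1).testBit ((l.diff o).sum - (43 + i - y)) && (43 + i - y).ble (l.diff o).sum

lemma dt_ok {y : ℕ} {o : List ℕ} (u : ∀ x ∈ l, 0 < x) (h : dt l y o (p + q))
    (H : ∀ t, Q 42 p q 24 d e t → Q 42 1 1 24 2 1 (o ++ t)) : Q 42 1 1 24 2 1 (y :: l) := by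
  simp only [dt, Bool.and_eq_true, Nat.ble_eq, List.isPerm_iff] at h
  obtain ⟨⟨⟨⟨⟨h1, h2⟩, h3⟩, h4⟩, h5⟩, h6⟩ := h
  refine (H _ (fin (t := [y]) (fun x hx => u x (List.diff_subset _ _ hx)) (sub' h5) h4 (by omega)
    (by convert base' using 2; omega))).perm ?_
  rw [← List.append_assoc]
  exact (List.perm_append_singleton _ _).trans (h3.cons y)

def diff (l : List ℕ) : Bool := l.eraseDups.any fun z => (l.erase z).eraseDups.any fun y =>
  dt ((l.erase z).erase y) y [] 2 || dt ((l.erase z).erase y) y [1] 2 ||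
  dt ((l.erase z).erase y) y [2] 2 || dt ((l.erase z).erase y) y [1, 2] 1 ||
  dt ((l.erase z).erase y) y [1, 1, 1, 1, 1] 0

def Good (l : List ℕ) : Prop := ∃ z l', l.Perm (z :: l') ∧ Q 42 1 1 24 2 1 l'

lemma diff_ok (u : ∀ x ∈ l, 0 < x) (h : diff l) : Good l := by
  simp only [diff, List.any_eq_true, List.mem_eraseDups, Bool.or_eq_true] at h
  obtain ⟨z, a, y, b, h⟩ := h
  refine ⟨z, _, List.perm_cons_erase a, Q.perm ?_ (List.perm_cons_erase b).symm⟩
  have u' := fun x => u x ∘ List.mem_of_mem_erase (b := z) ∘ List.mem_of_mem_erase (b := y)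
  rcases h with (((h | h) | h) | h) | h
  · exact dt_ok (p := 1) (q := 1) u' h fun _ h => h
  · exact dt_ok (p := 1) (q := 1) u' h fun _ h => sd one_pos one_le_two h
  · exact dt_ok (p := 1) (q := 1) u' h fun _ h => sd two_pos le_rfl h
  · exact dt_ok (p := 0) (q := 1) u' h fun _ h => sp one_pos le_rfl (sd two_pos le_rfl h)
  · exact dt_ok (p := 0) (q := 0) u' h fun _ h => sp one_pos le_rfl (sq one_pos le_rfl
      (sd one_pos one_le_two (sd one_pos le_rfl (se one_pos le_rfl h))))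

def ok (z : ℕ) : ℕ → List ℕ → ℕ → ℕ → Bool → Bool
  | 0, _, _, _, _ => false
  | _ + 1, l, 0, _, _ => same l 0 z || diff (z.succ :: l)
  | _ + 1, _, _ + 1, 0, _ => false
  | f + 1, l, r + 1, m + 1, b => z.blt m || r.blt m || (b && same l r.succ z) ||
      (ok z f (m.succ :: l) (r - m) m.succ true && ok z f l r.succ m.succ.succ false)

lemma ok_ok (z : ℕ) : ∀ (f : ℕ) (l : List ℕ) (r m : ℕ) (b : Bool), ok z f l r m b →
    (∀ x ∈ l, 0 < x) → ∀ t : List ℕ, (∀ x ∈ t, 0 < x ∧ m ≤ x ∧ x ≤ z + 1) → t.sum = r →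
    Good ((z + 1) :: (l ++ t))
  | _ + 1, l, 0, _, _, h, u, t, v, w => by
    rcases Bool.or_eq_true _ _ ▸ h with h | h
    · exact ⟨_, _, .refl _, same_ok u h (fun x hx => ⟨(v x hx).1, (v x hx).2.2⟩) w⟩
    · cases t with
      | nil => simpa using diff_ok (by simpa using u) h
      | cons x t => have := v x (.head _); simp at w; omega
  | f + 1, l, r + 1, m + 1, b, h, u, t, v, w => by
    simp only [ok, Bool.or_eq_true, Bool.and_eq_true, Nat.blt_eq] at h
    rcases h with ((h | h) | h) | h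
    iterate 2
      cases t with
      | nil => simp at w
      | cons x t => have := v x (.head _); simp at w; omega
    · exact ⟨_, _, .refl _, same_ok u h.2 (fun x hx => ⟨(v x hx).1, (v x hx).2.2⟩) w⟩
    by_cases a : m + 1 ∈ t
    · have b := List.perm_cons_erase a
      have := List.single_le_sum (fun _ _ => Nat.zero_le _) _ a
      obtain ⟨y, l', c, d⟩ := ok_ok z f _ _ _ _ h.1 (by simpa using u) (t.erase (m + 1))
        (fun x hx => v x (List.mem_of_mem_erase hx)) (by have := b.sum_eq; simp at this; omega)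
      exact ⟨y, l', (((b.append_left l).trans List.perm_middle).cons _).trans c, d⟩
    · exact ok_ok z f _ _ _ _ h.2 u t (fun x hx => by
        have := v x hx
        have : x ≠ m + 1 := fun e => a (e ▸ hx)
        omega) w

lemma chk : ∀ z < 73, ok z 200 [] (72 - z) 1 true := by decide +kernel

theorem result : ∃ (n : ℕ) (G : SimpleGraph (Fin n)) (_ : DecidableRel G.Adj),
    G.IsTree ∧ G.maxDegree = 4 ∧ EveryType G ∧ ∃ u v, u ≠ v ∧ G.degree u = 4 ∧ G.degree v = 4 := by
  have u : S 42 1 1 24 2 1 = univ := by ext; simp [S]; omega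
  refine ⟨73, G, inferInstance, SimpleGraph.isTree_iff_connected_and_card.2 ⟨?_, ?_⟩,
    by decide +kernel, fun t => ?_, 0, 45, by decide, by decide +kernel, by decide +kernel⟩
  · exact (SimpleGraph.induceUnivIso G).connected_iff.1 (coe_univ (α := Fin 73) ▸
      conn (B := univ) 0 (mem_univ _) fun v _ e => ⟨fun h => e (Fin.ext h), by simp⟩)
  · rw [Nat.card_eq_fintype_card, ← SimpleGraph.edgeFinset_card, Nat.card_eq_fintype_card,
      Fintype.card_fin]
    have := G.sum_degrees_eq_twice_card_edges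
    rw [show ∑ v, G.degree v = 144 by decide +kernel] at this
    omega
  obtain ⟨t, p, e⟩ := t
  induction t using Quotient.inductionOn with
  | _ t =>
  replace e : t.sum = 73 := by simpa using e
  obtain ⟨y, hy, my⟩ := t.toFinset.exists_max_image id (by
    cases t with
    | nil => simp at e
    | cons x t => simp)
  simp only [List.mem_toFinset, id] at hy my
  obtain ⟨y, rfl⟩ : ∃ k, y = k + 1 := ⟨y - 1, by have := p hy; omega⟩
  have b := List.perm_cons_erase hy
  have := List.single_le_sum (fun _ _ => Nat.zero_le _) _ hy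
  obtain ⟨z, l, a, b'⟩ := ok_ok y _ _ _ _ _ (chk y (by omega)) (by simp) (t.erase (y + 1))
    (fun x hx => have := List.mem_of_mem_erase hx; ⟨p this, p this, my x this⟩)
    (by have := b.sum_eq; simp at this; omega)
  replace a := b.trans a
  obtain ⟨w, P, c, d⟩ := u ▸ b' (by omega)
  have h1 : (P.parts.val.map card).sum = 73 := P.sum_card_parts
  have h2 := a.sum_eq
  simp [d] at h1 h2
  exact ⟨P, c, d.trans ((show w = z by omega) ▸ Multiset.coe_eq_coe.2 a.symm)⟩

end Pool.Agent.Results.MP_d6ea2c_co.Full
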